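import Pool.Agent.MP_1246c0_nt.H25.SpecR
import Pool.Agent.MP_1246c0_nt.H92.RM0

/-! Large solutions at low levels are rare. -/

namespace Pool.Agent.MP_1246c0_nt.H25

open Polynomial Finset Matrix
open Pool.Agent.MP_1246c0_nt.H12 Pool.Agent.MP_1246c0_nt.H12.RM0

namespace RML

theorem er_le {y κ : ℕ} (hy : 10 ≤ y) (hκ : κ ≤ 2 * y) : Er (κ + 1) y (y ^ 5) ≤ 1 / 2 ^ κ := by
  rw [Er, div_le_div_iff₀ (by positivity) (by positivity), one_mul, ← pow_add]
  refine pow_le_pow_right₀ one_le_two ?_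
  rw [Nat.le_div_iff_mul_le (by norm_num)]
  have h1 : 5 * (κ + 1 + 1) * (κ + 1 + y + 2) ≤ 5 * (3 * y) * (4 * y) :=
    Nat.mul_le_mul (by omega) (by omega)
  have h2 : 10 ^ 3 ≤ y ^ 3 := Nat.pow_le_pow_left hy 3
  have h3 : y ^ 5 = y ^ 3 * (y * y) := by ring
  have h4 : 10 ^ 3 * (y * y) ≤ y ^ 3 * (y * y) := Nat.mul_le_mul_right _ h2
  nlinarith

theorem xx_two (tp j0 a : ℕ) : xx tp j0 a ≤ 2 * xx tp j0 (a + 1) := by
  rw [xx, xx, ← pow_succ']
  exact Nat.pow_le_pow_right two_pos (by unfold jj; omega)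

theorem xx_big {tp j0 a x : ℕ} (h : a + 5 * x ≤ tp) : x ≤ xx tp j0 a :=
  le_trans (by unfold jj; omega) Nat.lt_two_pow_self.le

variable {ι : Type} [Fintype ι] [DecidableEq ι] {lv : ι → ℕ} {e : ι → F2} {B : Finset ι}
  {S : Matrix ι ι F2} {tp j0 : ℕ}

theorem okL (ok : SOKO) (hN : Nc lv e B S tp j0) (hS : Sym i2 i2 S e B) (hj : 55 ≤ j0) {a : ℕ}
    (ha : a < tp) (b : Bool) :
    Ok i2 i2 (rs lv a S) (fun l => e l.1) (tr lv a B) (pc lv a)
      ((univ.filter fun l => lv l.1 = a + if b = true then 1 else 0) ∩ tr lv a B) b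
      (xx tp j0 (a + if b = true then 1 else 0) ^ 5) (xx tp j0 (a + if b = true then 1 else 0)) ∧
    (pc lv a ∩ tr lv a B).card ≤ xx tp j0 (a + if b = true then 1 else 0) ^ 11 :=
  ok F2 ι i2 i2 lv e B S e tp j0 _ a b hN hj (by split_ifs <;> omega) ha rfl
    (fun l hl l' hl' => hS l (mem_filter.1 hl).1 l' (mem_filter.1 hl').1) fun _ => rfl

theorem kerL (av : SAVG) (ld : SLD) (ok : SOKO) (hN : Nc lv e B S tp j0) (hS : Sym i2 i2 S e B)
    (hj : 55 ≤ j0) {a κ γ : ℕ} (ha : a + 51 ≤ tp) (hκ : κ ≤ xx tp j0 a) (hγ : γ ≤ κ) :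
    Ex (Hs i2 B B) (fun H => ind (2 ^ κ < KK lv e (S + H) (a + 1))) ≤ 2 / 2 ^ γ := by
  refine (res av B fun M => ind (2 ^ κ < Kr M (fun l => e l.1) ∅)).trans_le
    ((ld.ker _ _ _ _ _ _ _ _ κ (okL ok hN hS hj (a := a + 1) (by omega) false).1).trans ?_)
  have h1 := er_le (xx_big (tp := tp) (j0 := j0) (a := a + 1) (x := 10) (by omega))
    (hκ.trans (xx_two tp j0 a))
  have b1 : (1 : ℝ) / 2 ^ κ ≤ 1 / 2 ^ γ :=
    one_div_le_one_div_of_le (by positivity) (pow_le_pow_right₀ one_le_two hγ)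
  have b2 : (1 : ℝ) / 2 ^ (κ + 1) ≤ 1 / 2 ^ γ :=
    one_div_le_one_div_of_le (by positivity) (pow_le_pow_right₀ one_le_two (by omega))
  rw [div_eq_mul_one_div 2]
  simp only [Bool.false_eq_true, if_false, add_zero]
  linarith

end RML

open RML in
theorem rowRML : OfRML := by
  intro av ld lvo ok elm A ε hε
  obtain ⟨γ, hγ⟩ := exists_nat_gt (24 * (A + 1) / ε + 1)
  have γ1 : 1 ≤ γ := by
    have : (0 : ℝ) ≤ 24 * (A + 1) / ε := by positivity
    exact_mod_cast (by linarith : (1 : ℝ) ≤ γ)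
  obtain ⟨x0, hx⟩ := lvo γ γ1
  refine ⟨γ, fun j0 hj => ⟨A + 52 + 5 * (x0 + γ), fun ι _ _ lv e B i1 S tp ht hN hF hS => ?_⟩⟩
  have one : ∀ a ≤ A, ∀ b, Ex (Hs i2 B B) (fun H => ind (BadLo lv e i1 (S + H) γ a b)) ≤
      12 / 2 ^ γ := fun a ha b => by
    refine le_of_le_of_eq ?_ (by ring : (2 : ℝ) / 2 ^ γ + 10 / 2 ^ γ = _)
    have big : ∀ a' ≤ A + 1, x0 + γ ≤ xx tp j0 a' := fun a' h => xx_big (by omega)
    by_cases a0 : a = 0
    · subst a0
      have z : ∀ H ∈ Hs i2 B B, ∀ l, H l i1 = 0 ∧ H i1 l = 0 := fun H hH l =>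
        ⟨hH.2.2 _ _ fun c => hF.nb c.2.1, hH.2.2 _ _ fun c => hF.nb c.1⟩
      obtain ⟨o1, o2, o3, o4⟩ := elm.ok ι lv e B i1 S tp j0 b hN hF hS hj (by omega)
      have rs := fun Φ : Matrix (Kp lv e i1) (Kp lv e i1) F2 → ℝ =>
        av.res F2 ι _ i2 B B Subtype.val
          (fun H => Φ ((elS lv e i1 S).submatrix Subtype.val Subtype.val + H)) Subtype.val_injective
      have b1 := big 1 (by omega)
      refine le_trans (av.mono _ _ _ _ fun H hH => ind_mono fun h => ?_)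
        ((rs fun M => ind (BadG M (fun l => elc e i1 l.1) (elP lv e i1) (elO lv e i1) b γ)).trans_le
          (hx _ _ _ _ _ _ _ b _ _ (by omega) o1
            (elm.ok ι lv e B i1 S tp j0 false hN hF hS hj (by omega)).1 o2 o3
            ((rs fun M => ind (2 ^ xx tp j0 1 < Kr M (fun l => elc e i1 l.1)
              (elP lv e i1))).symm.trans_le ((av.mono _ _ _ _ fun H hH => ind_mono fun h => ?_).trans
                (kerL av ld ok hN hS hj (a := 0) (by omega) (xx_anti (Nat.zero_le 1)) (by omega))))))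
      · rwa [BadLo, if_pos rfl, elm.add _ _ _ _ _ _ (z H hH)] at h
      · have := o4 H (z H hH)
        rw [elm.add _ _ _ _ _ _ (z H hH)] at this
        exact h.trans_eq this
    · obtain ⟨o1, o3⟩ := okL ok hN hS hj (a := a) (by omega) b
      have o := (okL ok hN hS hj (a := a) (by omega) false).1
      have b1 := big (a + if b = true then 1 else 0) (by split_ifs <;> omega)
      have b2 : xx tp j0 (a + if b = true then 1 else 0) ≤ xx tp j0 a := xx_anti (Nat.le_add_right _ _)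
      simp only [BadLo, if_neg a0]
      exact (res av B fun M => ind (BadG M (fun l => e l.1) (pc lv a) ∅ b γ)).trans_le
        (hx _ _ _ _ _ _ _ b _ _ (by omega) o1 ⟨o.sym, o.row, o.col, o.sub, o.typ,
          fun ε => (Nat.pow_le_pow_left b2 5).trans (o.cnt ε), o1.pen, o1.sml⟩
          ⟨empty_subset _, by simp, Or.inl rfl⟩ o3
          ((res av B fun M => ind (_ < Kr M (fun l => e l.1) (pc lv a))).symm.trans_le
            ((av.mono _ _ _ _ fun H _ => ind_mono fun h => h.trans_le (kr_step lv e _ a)).trans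
              (kerL av ld ok hN hS hj (by omega) b2 (by omega)))))
  have h1 := av.mono _ (Hs i2 B B) (fun H => ind (∃ a ≤ A, ∃ b, BadLo lv e i1 (S + H) γ a b))
    (fun H => ∑ q ∈ range (A + 1) ×ˢ (univ : Finset Bool), ind (BadLo lv e i1 (S + H) γ q.1 q.2))
    fun H _ => by
      by_cases c : ∃ a ≤ A, ∃ b, BadLo lv e i1 (S + H) γ a b
      · obtain ⟨a, ha, b, h⟩ := c
        exact (ind_mono fun _ => h).trans (single_le_sum
          (f := fun q : ℕ × Bool => ind (BadLo lv e i1 (S + H) γ q.1 q.2)) (fun _ _ => ind_nn _)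
          (mem_product.2 ⟨mem_range.2 (Nat.lt_succ_of_le ha), mem_univ b⟩ : (a, b) ∈ _))
      · rw [ind_neg c]
        exact sum_nonneg fun _ _ => ind_nn _
  rw [av.sum] at h1
  refine h1.trans ((sum_le_card_nsmul _ _ _ fun q hq =>
    one q.1 (Nat.le_of_lt_succ (mem_range.1 (mem_product.1 hq).1)) q.2).trans ?_)
  have h2 : (γ : ℝ) < 2 ^ γ := by exact_mod_cast Nat.lt_two_pow_self
  have h3 : 24 * ((A : ℝ) + 1) ≤ ε * 2 ^ γ := by
    rw [mul_comm ε]
    exact (div_le_iff₀ hε).1 (by linarith)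
  rw [card_product, card_range, card_univ, Fintype.card_bool, nsmul_eq_mul, ← mul_div_assoc,
    div_le_iff₀ (by positivity)]
  push_cast
  linarith

end Pool.Agent.MP_1246c0_nt.H25
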