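import Pool.Agent.MP_1246c0_nt.H55.SpecA

/-! Basic facts on real quadratic fields. -/

namespace Pool.Agent.MP_1246c0_nt.H76

open NumberField IsDedekindDomain Pool.Agent.MP_db5b97_nt.H85 Pool.Agent.MP_1246c0_nt.H55 Module
  Polynomial

theorem nsq {D : ℕ} (h : Fund D) (r : ℚ) : r ^ 2 ≠ D := by
  intro e
  obtain ⟨n, hn⟩ := Rat.isSquare_natCast_iff.1 ⟨r, e.symm.trans (sq r)⟩
  have h1 : n ≠ 1 := by
    rintro rfl
    have := h.1
    omega
  obtain ⟨p, hp, c, rfl⟩ := Nat.exists_prime_and_dvd h1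
  exact h.min hp c 0 (by rw [hn]; push_cast; ring)

variable {k : Type} [Field k] [NumberField k] {D : ℕ} {s : k} {τ : k ≃ₐ[ℚ] k}

theorem bas (h2 : finrank ℚ k = 2) (hD : Fund D) (hs : s ^ 2 = D) :
    ∃ b : Basis (Fin 2) ℚ k, b 0 = 1 ∧ b 1 = s := by
  have li : LinearIndependent ℚ ![(1 : k), s] :=
    (LinearIndependent.pair_iff' one_ne_zero).2 fun a e => nsq hD a (by
      rw [← e, Rat.smul_one_eq_cast] at hs
      exact_mod_cast hs)
  exact ⟨basisOfLinearIndependentOfCardEqFinrank li (by simp [h2]), by simp, by simp⟩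

theorem rep (h2 : finrank ℚ k = 2) (hD : Fund D) (hs : s ^ 2 = D) (x : k) :
    ∃ a b : ℚ, x = a + b * s := by
  obtain ⟨b, h0, h1⟩ := bas h2 hD hs
  refine ⟨b.repr x 0, b.repr x 1, ?_⟩
  conv_lhs => rw [← b.sum_repr x, Fin.sum_univ_two, h0, h1, Rat.smul_one_eq_cast, Rat.smul_def]

theorem lift (h2 : finrank ℚ k = 2) (hD : Fund D) (hs : s ^ 2 = D) {E : Type} [Field E]
    [CharZero E] (r : E) (hr : r ^ 2 = D) : ∃ f : k →+* E, f s = r := by
  obtain ⟨b, h0, h1⟩ := bas h2 hD hs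
  obtain ⟨f, f0, f1⟩ : ∃ f : k →ₗ[ℚ] E, f 1 = 1 ∧ f s = r :=
    ⟨b.constr ℚ ![1, r], by rw [← h0]; simp, by rw [← h1]; simp⟩
  have hf : ∀ a c : ℚ, f (a + c * s) = a + c * r := fun a c => by
    rw [← Rat.smul_one_eq_cast, ← Rat.smul_def, map_add, map_smul, map_smul, f0, f1,
      Rat.smul_one_eq_cast, Rat.smul_def]
  refine ⟨RingHom.mk' ⟨⟨f, f0⟩, fun x y => ?_⟩ f.map_add, f1⟩
  obtain ⟨a, c, rfl⟩ := rep h2 hD hs x
  obtain ⟨a', c', rfl⟩ := rep h2 hD hs y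
  have e : ((a : k) + c * s) * (a' + c' * s) =
      ((a * a' + c * c' * D : ℚ) : k) + ((a * c' + c * a' : ℚ) : k) * s := by
    push_cast
    linear_combination (c * c' : k) * hs
  show f _ = f _ * f _
  rw [e, hf, hf, hf]
  push_cast
  linear_combination (-(c * c') : E) * hr

theorem s_ne (q : Quad D s τ) : s ≠ 0 := fun h => nsq q.fund 0 (by
  have := q.sq
  rw [h] at this
  exact_mod_cast this)

theorem rep' (q : Quad D s τ) (x : k) : ∃ a b : ℚ, x = a + b * s ∧ τ x = a - b * s := by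
  obtain ⟨a, b, rfl⟩ := rep q.rank q.fund q.sq x
  exact ⟨a, b, rfl, by simp [q.conj, sub_eq_add_neg]⟩

theorem tt (q : Quad D s τ) (x : k) : τ (τ x) = x := by
  obtain ⟨a, b, rfl, e⟩ := rep' q x
  rw [e]
  simp [q.conj]

theorem fix (q : Quad D s τ) (x : k) (h : τ x = x) : ∃ r : ℚ, x = r := by
  obtain ⟨a, b, e1, e2⟩ := rep' q x
  exact ⟨a, by linear_combination (1 / 2 : k) * (e1 + e2 - h)⟩

theorem aut (q : Quad D s τ) (σ : k ≃ₐ[ℚ] k) : σ = 1 ∨ σ = τ := by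
  have h : σ s ^ 2 = s ^ 2 := by rw [← map_pow, q.sq, map_natCast]
  refine (sq_eq_sq_iff_eq_or_eq_neg.1 h).imp (fun h => ?_) fun h => ?_ <;>
  · ext x
    obtain ⟨a, b, rfl⟩ := rep q.rank q.fund q.sq x
    simp [h, q.conj]

theorem t_ne (q : Quad D s τ) : τ ≠ 1 := fun h => s_ne q (by
  have := q.conj
  rw [h, AlgEquiv.one_apply] at this
  linear_combination (1 / 2 : k) * this)

theorem nrm_eq (q : Quad D s τ) (x : k) : (Algebra.norm ℚ x : k) = x * τ x := by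
  classical
  have hu : (Finset.univ : Finset (k ≃ₐ[ℚ] k)) = {1, τ} := by
    ext σ
    simpa using aut q σ
  have : IsGalois ℚ k := IsGalois.of_card_aut_eq_finrank ℚ k (by
    rw [q.rank, Nat.card_eq_fintype_card, ← Finset.card_univ, hu,
      Finset.card_pair (t_ne q).symm])
  have h := Algebra.norm_eq_prod_automorphisms ℚ x
  rw [hu, Finset.prod_pair (t_ne q).symm] at h
  exact h

theorem real (q : Quad D s τ) : IsTotallyReal k := by
  refine ⟨fun v => InfinitePlace.isReal_iff.2 (ComplexEmbedding.isReal_iff.2 ?_)⟩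
  generalize v.embedding = φ
  have h : φ s ^ 2 = ((Real.sqrt D : ℝ) : ℂ) ^ 2 := by
    rw [← map_pow, q.sq, map_natCast, ← Complex.ofReal_pow, Real.sq_sqrt (Nat.cast_nonneg D),
      Complex.ofReal_natCast]
  have h' : starRingEnd ℂ (φ s) = φ s := by
    rcases sq_eq_sq_iff_eq_or_eq_neg.1 h with h | h <;> simp [h]
  ext x
  obtain ⟨a, b, rfl⟩ := rep q.rank q.fund q.sq x
  simp [h']

theorem tint {x : k} (h : IsIntegral ℤ x) : IsIntegral ℤ (τ x) :=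
  h.map (τ : k →+* k).toIntAlgHom

theorem fixint (q : Quad D s τ) (x : k) (hx : IsIntegral ℤ x) (h : τ x = x) :
    ∃ n : ℤ, x = n := by
  obtain ⟨r, rfl⟩ := fix q x h
  obtain ⟨n, rfl⟩ := IsIntegrallyClosed.isIntegral_iff.1
    ((isIntegral_algebraMap_iff (algebraMap ℚ k).injective).1 hx)
  exact ⟨n, by simp⟩

theorem omega_int (q : Quad D s τ) : IsIntegral ℤ ((D + s) / 2) := by
  obtain ⟨c, hc⟩ : ∃ c : ℤ, (D : ℤ) ^ 2 - D = 4 * c := by
    rcases q.fund.2 with ⟨h, -⟩ | ⟨m, rfl, -⟩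
    · obtain ⟨t, ht⟩ : ∃ t : ℤ, (D : ℤ) = 4 * t + 1 := ⟨D / 4, by omega⟩
      exact ⟨D * t, by rw [ht]; ring⟩
    · exact ⟨4 * m ^ 2 - m, by push_cast; ring⟩
  refine ⟨X ^ 2 - C (D : ℤ) * X + C c, by monicity!, ?_⟩
  have hc' : (D : k) ^ 2 - D = 4 * c := by exact_mod_cast hc
  simp only [eval₂_add, eval₂_sub, eval₂_mul, eval₂_X_pow, eval₂_C, eval₂_X]
  simp only [algebraMap_int_eq, eq_intCast, Int.cast_natCast]
  linear_combination (1 / 4 : k) * q.sq - (1 / 4 : k) * hc'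

omit [NumberField k] in
theorem toO (x : k) (hx : IsIntegral ℤ x) : ∃ y : 𝓞 k, (y : k) = x := ⟨⟨x, hx⟩, rfl⟩

theorem key (q : Quad D s τ) : ∃ (b : Basis (Fin 2) ℤ (𝓞 k)) (e : ℤ), e.natAbs = 1 ∧
    ∀ v : Fin 2 → 𝓞 k, (v 0 : k) * τ (v 1) - τ (v 0) * v 1 = (b.det v * e : ℤ) * s := by
  let b : Basis (Fin 2) ℤ (𝓞 k) :=
    Module.finBasisOfFinrankEq ℤ _ ((RingOfIntegers.rank k).trans q.rank)
  have hx : ∀ x : 𝓞 k, (x : k) = b.repr x 0 * b 0 + b.repr x 1 * b 1 := fun x => by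
    conv_lhs => rw [← b.sum_repr x, Fin.sum_univ_two]
    simp
  obtain ⟨t, ht⟩ : ∃ t, t = (b 0 : k) * τ (b 1) - τ (b 0) * b 1 := ⟨_, rfl⟩
  have h1 : ∀ v : Fin 2 → 𝓞 k, (v 0 : k) * τ (v 1) - τ (v 0) * v 1 = b.det v * t := fun v => by
    rw [b.det_apply, Matrix.det_fin_two, hx (v 0), hx (v 1), ht]
    simp only [Basis.toMatrix_apply, map_add, map_mul, map_intCast]
    push_cast
    ring
  have i0 := RingOfIntegers.isIntegral_coe (b 0)
  have i1 := RingOfIntegers.isIntegral_coe (b 1)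
  obtain ⟨u, hu⟩ := fixint q (b 0 * τ (b 1) + τ (b 0) * b 1)
    ((i0.mul (tint i1)).add ((tint i0).mul i1)) (by simp only [map_add, map_mul, tt q]; ring)
  obtain ⟨v, hv⟩ := fixint q (b 0 * τ (b 0) * (b 1 * τ (b 1)))
    ((i0.mul (tint i0)).mul (i1.mul (tint i1))) (by simp only [map_mul, tt q]; ring)
  obtain ⟨m, hm⟩ : ∃ m : ℤ, s = m * t := by
    obtain ⟨y, hy⟩ := toO _ (omega_int q)
    refine ⟨_, Eq.trans ?_ (h1 ![y, 1])⟩
    simp [hy, q.conj, map_ofNat]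
    ring
  have hD : (D : ℤ) = m ^ 2 * (u ^ 2 - 4 * v) := by
    have : (D : k) = m ^ 2 * (u ^ 2 - 4 * v) := by
      rw [← q.sq, hm, ← hu, ← hv, ht]
      ring
    exact_mod_cast this
  have hm1 : m.natAbs = 1 := by
    by_contra h
    obtain ⟨p, hp, hd⟩ := Nat.exists_prime_and_dvd h
    obtain ⟨c, rfl⟩ := Int.natCast_dvd.2 hd
    exact q.fund.min hp (c * u) (c ^ 2 * v) (by rw [hD]; ring)
  refine ⟨b, m, hm1, fun v => ?_⟩
  have h2 : (m : k) * m = 1 := by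
    rcases Int.natAbs_eq_iff.1 hm1 with h | h <;> simp [h]
  rw [h1, hm]
  push_cast
  linear_combination (-(b.det v : k) * t) * h2

theorem int (q : Quad D s τ) (x : k) (hx : IsIntegral ℤ x) :
    ∃ t m : ℤ, x + τ x = t ∧ x - τ x = m * s := by
  obtain ⟨b, e, -, h⟩ := key q
  obtain ⟨t, ht⟩ := fixint q (x + τ x) (hx.add (tint hx)) (by rw [map_add, tt q, add_comm])
  obtain ⟨y, rfl⟩ := toO x hx
  refine ⟨t, _, ht, Eq.trans ?_ (h ![y, 1])⟩
  simp

theorem basis (q : Quad D s τ) (I : Ideal (𝓞 k)) (hI : I ≠ ⊥) : ∃ α ∈ I, ∃ β ∈ I,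
    (α : k) * τ β - τ α * β = (Ideal.absNorm I : ℕ) * s := by
  obtain ⟨b, e, he, h⟩ := key q
  obtain ⟨c⟩ : Nonempty (Basis (Fin 2) ℤ I) := ⟨Ideal.selfBasis b I hI⟩
  have h1 := Ideal.natAbs_det_basis_change b I c
  have h2 := h ((↑) ∘ c)
  have h3 : (b.det ((↑) ∘ c) * e).natAbs = Ideal.absNorm I := by
    rw [Int.natAbs_mul, he, mul_one, h1]
  rcases Int.natAbs_eq_iff.1 h3 with h4 | h4 <;> rw [h4] at h2
  · exact ⟨c 0, (c 0).2, c 1, (c 1).2, by simpa using h2⟩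
  · refine ⟨c 1, (c 1).2, c 0, (c 0).2, ?_⟩
    simp only [Function.comp_apply, Int.cast_neg, Int.cast_natCast] at h2
    linear_combination -h2

theorem exists_S (q : Quad D s τ) : ∃ S : 𝓞 k, S ^ 2 = D ∧ τ • S = -S ∧
    ∀ x : 𝓞 k, ∃ t m : ℤ, x = 3 * x - t - m * S ∧
      4 * (x * (t - x)) = ((t ^ 2 - D * m ^ 2 : ℤ) : 𝓞 k) := by
  have hs : IsIntegral ℤ s := IsIntegral.of_pow two_pos (by
    rw [q.sq]; exact_mod_cast isIntegral_algebraMap (R := ℤ) (A := k) (x := (D : ℤ)))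
  obtain ⟨S, rfl⟩ := toO s hs
  refine ⟨S, RingOfIntegers.ext (by simpa using q.sq), RingOfIntegers.ext q.conj, fun x => ?_⟩
  obtain ⟨t, m, h1, h2⟩ := int q x (RingOfIntegers.isIntegral_coe x)
  refine ⟨t, m, RingOfIntegers.ext ?_, RingOfIntegers.ext ?_⟩
  · simp only [map_sub, map_mul, map_intCast, map_ofNat]
    linear_combination -h1 - h2
  · simp only [map_sub, map_mul, map_intCast, map_ofNat]
    push_cast
    linear_combination (m : k) ^ 2 * q.sq * (-1) - ((x : k) * 2 - t + m * S) * (h1 + h2)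

omit [NumberField k] in
theorem three_mem (w : Pl k 3) : (3 : 𝓞 k) ∈ w.1.asIdeal := by simpa using w.2

omit [NumberField k] in
theorem dvd_of_mem (w : Pl k 3) (n : ℤ) (h : (n : 𝓞 k) ∈ w.1.asIdeal) : 3 ∣ n := by
  by_contra hn
  obtain ⟨a, b, e⟩ := (Int.prime_three.coprime_iff_not_dvd.2 hn).map (Int.castRingHom (𝓞 k))
  refine w.1.isPrime.ne_top ((Ideal.eq_top_iff_one _).2 ?_)
  rw [← e]
  exact add_mem (Ideal.mul_mem_left _ _ (by simpa using three_mem w))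
    (Ideal.mul_mem_left _ _ (by simpa using h))

theorem pl_ne : Nonempty (Pl k 3) := by
  have : (Ideal.span {(3 : ℤ)}).IsMaximal := 
    PrincipalIdealRing.isMaximal_of_irreducible Int.prime_three.irreducible
  obtain ⟨Q, hQ, e⟩ := Ideal.exists_ideal_over_maximal_of_isIntegral (S := 𝓞 k)
    (Ideal.span {(3 : ℤ)}) (by
      rw [(RingHom.injective_iff_ker_eq_bot _).1 (algebraMap ℤ (𝓞 k)).injective_int]
      exact bot_le)
  have h : ((3 : ℕ) : 𝓞 k) ∈ Q := by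
    have : (3 : ℤ) ∈ Q.comap (algebraMap ℤ (𝓞 k)) := e ▸ Ideal.mem_span_singleton_self _
    simpa [Ideal.mem_comap] using this
  exact ⟨⟨⟨Q, hQ.isPrime, fun h0 => by simp [h0] at h⟩, h⟩⟩

omit [NumberField k] in
theorem pl_ext [NumberField k] {w w' : Pl k 3} (h : w.1.asIdeal ≤ w'.1.asIdeal) : w = w' :=
  Subtype.ext (HeightOneSpectrum.ext (w.1.isMaximal.eq_of_le w'.1.isPrime.ne_top h))

omit [NumberField k] in
theorem shape {S : 𝓞 k} {e : ℤ} {w : Pl k 3} (hw : S - e ∈ w.1.asIdeal) {x : 𝓞 k}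
    (hx : x ∈ w.1.asIdeal) {t m : ℤ} (h : x = 3 * x - t - m * S) :
    ∃ a : 𝓞 k, x = 3 * a - m * (S - e) := by
  obtain ⟨c, hc⟩ := dvd_of_mem w (t + m * e) (by
    have : ((t + m * e : ℤ) : 𝓞 k) = 2 * x - m * (S - e) := by
      push_cast
      linear_combination h
    rw [this]
    exact sub_mem (Ideal.mul_mem_left _ _ hx) (Ideal.mul_mem_left _ _ hw))
  have hc' := congrArg (Int.cast : ℤ → 𝓞 k) hc
  push_cast at hc'
  exact ⟨x - c, by linear_combination h - hc'⟩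

theorem nonsplit (q : Quad D s τ) (hD : D % 3 ≠ 1) :
    Nat.card (Pl k 3) = 1 ∧ ∀ w : Pl k 3, τ • w = w := by
  obtain ⟨S, h1, -, h3⟩ := exists_S q
  have : Subsingleton (Pl k 3) := ⟨fun w w' => pl_ext fun x hx => by
    obtain ⟨t, m, e1, e2⟩ := h3 x
    by_cases h0 : D % 3 = 0
    · have hS : ∀ v : Pl k 3, S - (0 : ℤ) ∈ v.1.asIdeal := fun v => by
        obtain ⟨c, hc⟩ := Nat.dvd_of_mod_eq_zero h0
        rw [Int.cast_zero, sub_zero]
        refine v.1.isPrime.mem_of_pow_mem 2 ?_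
        rw [h1, hc, Nat.cast_mul]
        exact Ideal.mul_mem_right _ _ v.2
      obtain ⟨a, ha⟩ := shape (hS w) hx e1
      rw [ha]
      exact sub_mem (Ideal.mul_mem_right _ _ (three_mem w')) (Ideal.mul_mem_left _ _ (hS w'))
    · have h4 := dvd_of_mem w _ (e2 ▸ Ideal.mul_mem_left _ _ (Ideal.mul_mem_right _ _ hx))
      obtain ⟨c, hc⟩ : ∃ c : ℤ, (D : ℤ) = 3 * c + 2 := ⟨D / 3, by omega⟩
      have h5 : ((t ^ 2 - D * m ^ 2 : ℤ) : ZMod 3) = 0 :=
        (ZMod.intCast_zmod_eq_zero_iff_dvd _ 3).2 h4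
      have h6 : ∀ a b c : ZMod 3, a ^ 2 - (3 * c + 2) * b ^ 2 = 0 → a = 0 ∧ b = 0 := by decide
      rw [hc] at h5
      push_cast at h5
      obtain ⟨h7, h8⟩ := h6 _ _ _ h5
      obtain ⟨a, rfl⟩ := (ZMod.intCast_zmod_eq_zero_iff_dvd _ 3).1 h7
      obtain ⟨b, rfl⟩ := (ZMod.intCast_zmod_eq_zero_iff_dvd _ 3).1 h8
      have : x = 3 * (x - a - b * S) := by
        push_cast at e1
        linear_combination e1
      rw [this]
      exact Ideal.mul_mem_right _ _ (three_mem w')⟩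
  exact ⟨Nat.card_eq_one_iff_unique.2 ⟨this, pl_ne⟩, fun w => Subsingleton.elim _ _⟩

theorem padic_root (hD : D % 3 = 1) : ∃ r : ℚ_[3], r ^ 2 = D := by
  obtain ⟨z, hz, -⟩ := hensels_lemma (p := 3) (F := (X ^ 2 - C (D : ℤ) : ℤ[X])) (a := 1) (by
    have h1 := (PadicInt.norm_int_lt_one_iff_dvd (p := 3) (1 - D)).2 (by omega)
    have h2 := (PadicInt.norm_natCast_eq_one_iff (p := 3) (n := 2)).2 (by norm_num)
    have e1 : aeval (1 : ℤ_[3]) (X ^ 2 - C (D : ℤ) : ℤ[X]) = ((1 - D : ℤ) : ℤ_[3]) := by simp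
    have e2 : aeval (1 : ℤ_[3]) (derivative (X ^ 2 - C (D : ℤ) : ℤ[X])) = ((2 : ℕ) : ℤ_[3]) := by
      rw [derivative_sub, derivative_C, derivative_X_pow]
      simp [map_ofNat]
    rwa [e1, e2, h2, one_pow])
  refine ⟨z, ?_⟩
  have : z ^ 2 = D := by simpa [sub_eq_zero] using hz
  simpa using congrArg (Subtype.val : ℤ_[3] → ℚ_[3]) this

theorem split (q : Quad D s τ) (hD : D % 3 = 1) :
    Nonempty (k →+* ℚ_[3]) ∧ Nat.card (Pl k 3) = 2 ∧ ∃ v : Pl k 3, τ • v ≠ v ∧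
      ∀ w : Pl k 3, (w = v ∨ w = τ • v) ∧ Ideal.absNorm w.1.asIdeal = 3 ∧
        ord w.1 (Un.mk (3 : k) three_ne_zero) = 1 := by
  classical
  obtain ⟨r, hr⟩ := padic_root hD
  obtain ⟨ι, -⟩ := lift q.rank q.fund q.sq r hr
  obtain ⟨S, h1, h2, h3⟩ := exists_S q
  obtain ⟨c, hc⟩ : ∃ c : ℕ, D = 3 * c + 1 := ⟨D / 3, by omega⟩
  have hp : ∀ e : ℤ, e ^ 2 = 1 → (S - e) * (S - (-e : ℤ)) = 3 * c := fun e he => by
    have : (e : 𝓞 k) ^ 2 = 1 := by exact_mod_cast he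
    rw [hc] at h1
    push_cast at h1 ⊢
    linear_combination h1 - this
  have ho : ∀ (e : ℤ) (w : Pl k 3), e ^ 2 = 1 →
      S - e ∈ w.1.asIdeal ∨ S - (-e : ℤ) ∈ w.1.asIdeal := fun e w he =>
    w.1.isPrime.mem_or_mem (hp e he ▸ Ideal.mul_mem_right _ _ (three_mem w))
  have hex : ∀ w : Pl k 3, ∃ e : ℤ, e ^ 2 = 1 ∧ S - e ∈ w.1.asIdeal := fun w =>
    (ho 1 w rfl).elim (fun h => ⟨1, rfl, h⟩) fun h => ⟨-1, rfl, h⟩
  have huniq : ∀ (e : ℤ) (w w' : Pl k 3), S - e ∈ w.1.asIdeal → S - e ∈ w'.1.asIdeal → w = w' :=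
    fun e w w' h h' => pl_ext fun x hx => by
      obtain ⟨t, m, e1, -⟩ := h3 x
      obtain ⟨a, ha⟩ := shape h hx e1
      rw [ha]
      exact sub_mem (Ideal.mul_mem_right _ _ (three_mem w')) (Ideal.mul_mem_left _ _ h')
  have hti : τ⁻¹ = τ := inv_eq_of_mul_eq_one_right (AlgEquiv.ext (tt q))
  have hconj : ∀ (e : ℤ) (w : Pl k 3), S - e ∈ w.1.asIdeal →
      S - (-e : ℤ) ∈ (τ • w).1.asIdeal := fun e w h => by
    refine (mem_smul_iff τ w.1 _).2 ?_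
    have : τ • ((-e : ℤ) : 𝓞 k) = (-e : ℤ) := map_intCast (MulSemiringAction.toRingHom _ _ τ) _
    rw [hti, smul_sub, h2, this]
    simpa [sub_eq_add_neg, add_comm] using neg_mem h
  have hne : ∀ w : Pl k 3, τ • w ≠ w := fun w h => by
    obtain ⟨e, he, hw⟩ := hex w
    have h4 := hconj e w hw
    rw [h] at h4
    have h5 := dvd_of_mem w (2 * e) (by
      have : ((2 * e : ℤ) : 𝓞 k) = S - (-e : ℤ) - (S - e) := by push_cast; ring
      rw [this]
      exact sub_mem h4 hw)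
    rcases sq_eq_one_iff.1 he with rfl | rfl <;> omega
  obtain ⟨v⟩ := pl_ne (k := k)
  obtain ⟨e, he, hv⟩ := hex v
  have hall : ∀ w : Pl k 3, w = v ∨ w = τ • v := fun w =>
    (ho e w he).imp (fun h => huniq e w v h hv) fun h => huniq _ w _ h (hconj e v hv)
  refine ⟨⟨ι⟩, Nat.card_eq_two_iff.2 ⟨v, τ • v, (hne v).symm, Set.eq_univ_of_forall hall⟩,
    v, hne v, fun w => ⟨hall w, ?_, ?_⟩⟩
  · obtain ⟨f, -, hw⟩ := hex w
    have := w.1.isPrime
    have : CharP (𝓞 k ⧸ w.1.asIdeal) 3 := (CharP.charP_iff_prime_eq_zero Nat.prime_three).2 (by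
      rw [← map_natCast (Ideal.Quotient.mk w.1.asIdeal), Ideal.Quotient.eq_zero_iff_mem]
      exact w.2)
    rw [Ideal.absNorm_apply, Submodule.cardQuot_apply, ← Nat.card_eq_of_bijective
      (ZMod.castHom (dvd_refl 3) (𝓞 k ⧸ w.1.asIdeal)) ⟨RingHom.injective _, fun y => ?_⟩,
      Nat.card_zmod]
    obtain ⟨x, rfl⟩ := Ideal.Quotient.mk_surjective y
    obtain ⟨t, m, e1, -⟩ := h3 x
    refine ⟨((-(t + m * f) : ℤ) : ZMod 3), ?_⟩
    rw [map_intCast, ← map_intCast (Ideal.Quotient.mk w.1.asIdeal), Ideal.Quotient.eq]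
    have : ((-(t + m * f) : ℤ) : 𝓞 k) - x = m * (S - f) - 3 * x := by
      push_cast
      linear_combination -e1
    rw [this]
    exact sub_mem (Ideal.mul_mem_left _ _ hw) (Ideal.mul_mem_right _ _ (three_mem w))
  · obtain ⟨f, hf, hw⟩ := hex w
    have h30 : (3 : 𝓞 k) ≠ 0 := by simp
    have e3 : Un.mk (3 : k) three_ne_zero = mkI 3 h30 := Un.ext (by simp [map_ofNat])
    obtain ⟨J, hJ⟩ : Ideal.span {(3 : 𝓞 k)} ∣ w.1.asIdeal * (τ • w).1.asIdeal := by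
      refine Ideal.dvd_iff_le.2 (Ideal.mul_le.2 fun x hx y hy => ?_)
      obtain ⟨t, m, e1, -⟩ := h3 x
      obtain ⟨t', m', e2, -⟩ := h3 y
      obtain ⟨a, ha⟩ := shape hw hx e1
      obtain ⟨b, hb⟩ := shape (hconj f w hw) hy e2
      refine Ideal.mem_span_singleton'.2 ⟨a * y - m * (S - f) * b + m * m' * c, ?_⟩
      rw [ha]
      nth_rewrite 2 [hb]
      linear_combination (-(m * m' : 𝓞 k)) * hp f hf + 3 * a * hb
    have hJ0 : J ≠ ⊥ := by
      rintro rfl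
      exact mul_ne_zero w.1.ne_bot (τ • w).1.ne_bot (hJ.trans (mul_zero _))
    have h4 := congrArg (multiplicity w.1.asIdeal) hJ
    rw [mult_mul _ w.1.ne_bot (τ • w).1.ne_bot, mult_mul _ (by simp) hJ0, mult_prime,
      mult_prime, if_pos rfl, if_neg fun h => hne w (Subtype.ext h.symm)] at h4
    have h5 : multiplicity w.1.asIdeal (Ideal.span {(3 : 𝓞 k)}) ≠ 0 := fun h =>
      multiplicity_eq_zero.1 h (Ideal.dvd_span_singleton.2 (three_mem w))
    rw [e3, ord_mkI]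
    omega

theorem exists_conj (h2 : finrank ℚ k = 2) (hD : Fund D) (hs : s ^ 2 = D) :
    ∃ τ : k ≃ₐ[ℚ] k, Quad D s τ := by
  obtain ⟨f, hf⟩ := lift h2 hD hs (-s) (by rw [neg_sq, hs])
  exact ⟨AlgEquiv.ofBijective f.toRatAlgHom (Algebra.IsAlgebraic.algHom_bijective _),
    h2, hD, hs, hf⟩

theorem model (D : ℕ) (hD : Fund D) : ∃ (_ : NumberField (kD D)) (s : kD D)
    (τ : kD D ≃ₐ[ℚ] kD D), Quad D s τ := by
  obtain ⟨z, hz⟩ : ∃ z : ℂ, z = ((Real.sqrt D : ℝ) : ℂ) := ⟨_, rfl⟩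
  have h : z ^ 2 = D := by
    rw [hz, ← Complex.ofReal_pow, Real.sq_sqrt (Nat.cast_nonneg D), Complex.ofReal_natCast]
  have hm : (X ^ 2 - C (D : ℚ)).Monic := monic_X_pow_sub_C _ two_ne_zero
  have h0 : aeval z (X ^ 2 - C (D : ℚ)) = 0 := by simp [h]
  have hi : IsIntegral ℚ z := ⟨_, hm, h0⟩
  have e := minpoly.eq_of_irreducible_of_monic
    (X_pow_sub_C_irreducible_of_prime Nat.prime_two (nsq hD)) h0 hm
  have h2 := IntermediateField.adjoin.finrank hi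
  rw [← e, natDegree_X_pow_sub_C] at h2
  have hf := IntermediateField.adjoin.finiteDimensional hi
  unfold kD
  rw [← hz]
  have hN : NumberField (IntermediateField.adjoin ℚ {z}) := ⟨⟩
  exact ⟨hN, IntermediateField.AdjoinSimple.gen ℚ z, exists_conj h2 hD (Subtype.ext (by simpa using h))⟩

theorem rowQB : RowQB where
  invol _ _ _ _ _ _ q := ⟨tt q, aut q, t_ne q, s_ne q, fix q, nrm_eq q, real q⟩
  int _ _ _ _ _ _ q := int q
  basis _ _ _ _ _ _ q := basis q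
  split _ _ _ _ _ _ q := split q
  nonsplit _ _ _ _ _ _ q := nonsplit q
  model := model

end Pool.Agent.MP_1246c0_nt.H76
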